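import Pool.Agent.N116.EW.Sep
import Pool.Agent.H974R4.W2.FB
import Pool.Agent.H973R3.NC.DV

/-!
Project EW (leaf EW16): crossing probabilities move at the scale of the window.
-/

set_option autoImplicit false
set_option maxHeartbeats 1000000

namespace Pool.Agent.N116.EW

open H974 H12S H389NS H984N H984P H342P Finset

namespace SepX

open H973N in
/-- The derivative of the probability of an increasing event is at least its variance (a copy of
`TH291.NW.poinc`). -/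
theorem poinc {E : Type*} [DecidableEq E] (S : Finset E) :
    ∀ f : Finset E → Prop, (∀ F G : Finset E, F ⊆ G → f F → f G) → ∀ q : ℝ, 0 ≤ q → q ≤ 1 →
      ∀ d : ℝ, HasDerivAt (fun q : ℝ => Pr (fun _ => q) S f) d q →
      Pr (fun _ => q) S f * (1 - Pr (fun _ => q) S f) ≤ d := by
  induction S using Finset.induction_on with
  | empty =>
    intro f hf q h0 h1 d hd
    have e : (fun q : ℝ => Pr (fun _ : E => q) ∅ f) = fun _ => ind (f ∅) := by
      funext q
      unfold Pr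
      rw [Ex_empty]
    rw [e] at hd
    have hd0 : d = 0 := hd.unique (hasDerivAt_const q _)
    have e2 : Pr (fun _ : E => q) ∅ f = ind (f ∅) := by
      unfold Pr
      rw [Ex_empty]
    rw [hd0, e2]
    have := ind_sq (f ∅)
    nlinarith
  | insert a S ha ih =>
    intro f hf q h0 h1 d hd
    have ok : Ok (fun _ : E => q) := fun _ => ⟨h0, h1⟩
    have hg : ∀ F G : Finset E, F ⊆ G → f (insert a F) → f (insert a G) := fun F G hFG h =>
      hf _ _ (Finset.insert_subset_insert a hFG) h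
    have dA := deriv_f S (fun F => f (insert a F)) hg q
    have dB := deriv_f S f hf q
    obtain ⟨A', hA'⟩ : ∃ A' : ℝ, A' = ∑ e ∈ S, Pr (fun _ => q) S (Pf (fun F => f (insert a F)) e) :=
      ⟨_, rfl⟩
    obtain ⟨B', hB'⟩ : ∃ B' : ℝ, B' = ∑ e ∈ S, Pr (fun _ => q) S (Pf f e) := ⟨_, rfl⟩
    rw [← hA'] at dA
    rw [← hB'] at dB
    obtain ⟨A, hA⟩ : ∃ A : ℝ, A = Pr (fun _ => q) S (fun F => f (insert a F)) := ⟨_, rfl⟩
    obtain ⟨B, hB⟩ : ∃ B : ℝ, B = Pr (fun _ => q) S f := ⟨_, rfl⟩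
    have iA := ih _ hg q h0 h1 _ dA
    have iB := ih f hf q h0 h1 _ dB
    have e : (fun q : ℝ => Pr (fun _ : E => q) (insert a S) f) = fun q : ℝ =>
        q * Pr (fun _ => q) S (fun F => f (insert a F)) + (1 - q) * Pr (fun _ => q) S f := by
      funext q
      unfold Pr
      rw [Ex_insert _ ha]
    have hd2 : HasDerivAt (fun q : ℝ => Pr (fun _ : E => q) (insert a S) f)
        (1 * A + q * A' + ((0 - 1) * B + (1 - q) * B')) q := by
      rw [e, hA, hB]
      exact ((hasDerivAt_id q).mul dA).add (((hasDerivAt_const q (1:ℝ)).sub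
        (hasDerivAt_id q)).mul dB)
    have hdd := hd.unique hd2
    have ev := congrFun e q
    rw [hdd, ev, ← hA, ← hB]
    rw [← hA] at iA
    rw [← hB] at iB
    have hAB : B ≤ A := by
      rw [hA, hB]
      apply Pr_mono ok
      intro F _ hF
      exact hf _ _ (Finset.subset_insert a F) hF
    have hA1 : A ≤ 1 := by rw [hA]; exact Pr_le_one ok _ _
    have hB0 : 0 ≤ B := by rw [hB]; exact Pr_nonneg ok _ _
    have h3 : (q * A + (1 - q) * B) * (1 - (q * A + (1 - q) * B)) =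
        q * (A * (1 - A)) + (1 - q) * (B * (1 - B)) + q * (1 - q) * (A - B)^2 := by ring
    rw [h3]
    have h4 : q * (A * (1 - A)) ≤ q * A' := mul_le_mul_of_nonneg_left iA h0
    have h5 : (1 - q) * (B * (1 - B)) ≤ (1 - q) * B' :=
      mul_le_mul_of_nonneg_left iB (by linarith)
    have h6 : q * (1 - q) * (A - B)^2 ≤ A - B := by
      have i1 : (A - B)^2 ≤ A - B := by nlinarith
      have i2 : q * (1 - q) ≤ 1 := by nlinarith
      have i3 : 0 ≤ q * (1 - q) := mul_nonneg h0 (by linarith)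
      calc q * (1 - q) * (A - B)^2 ≤ 1 * (A - B)^2 :=
            mul_le_mul_of_nonneg_right i2 (sq_nonneg _)
        _ ≤ A - B := by linarith
    linarith

/-- Russo's formula. -/
theorem cn_piv (I J : Set Vtx) (S : Finset Edg) (q : ℝ) :
    HasDerivAt (fun q : ℝ => PQ q S (fun F => Cn I J (↑F : Set Edg)))
      (∑ e ∈ S, PQ q S (fun F => Pv I J e ↑F)) q := by
  have h := Ex_hasDerivAt (fun (q : ℝ) (_ : Edg) => q) (fun _ => 1) q (fun _ => hasDerivAt_id q)
    S (fun F => ind (Cn I J (↑F : Set Edg)))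
  simp only [one_mul] at h
  have h2 : (∑ e ∈ S, Ex (fun _ => q) (S.erase e) fun F =>
      ind (Cn I J (↑(insert e F) : Set Edg)) - ind (Cn I J (↑F : Set Edg))) =
      ∑ e ∈ S, PQ q S (fun F => Pv I J e ↑F) :=
    Finset.sum_congr rfl fun e he => FBB_pv q I J S e he
  rw [h2] at h
  exact h

/-- Integration of the lower bound of the derivative. -/
theorem integ {f : ℝ → ℝ} {N b c : ℝ} (hN : 1 ≤ N) (hb : 0 < b) (hb4 : b ≤ 1/4) (hc : 0 < c)
    (hmono : ∀ x y : ℝ, 0 ≤ x → x ≤ y → y ≤ 1 → f x ≤ f y)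
    (hder : ∀ q : ℝ, |q - 1/2| ≤ b * N ^ (-(3/4 : ℝ)) →
      ∃ d, HasDerivAt f d q ∧ c * N ^ (3/4 : ℝ) ≤ d)
    {q : ℝ} (h0 : 0 ≤ q) (h1 : q ≤ 1) :
    (1/2 ≤ q → f (1/2) + min c (c * b) * min 1 ((q - 1/2) * N ^ (3/4 : ℝ)) ≤ f q) ∧
    (q ≤ 1/2 → f q + min c (c * b) * min 1 ((1/2 - q) * N ^ (3/4 : ℝ)) ≤ f (1/2)) := by
  have hw0 : (0:ℝ) < N := by linarith
  have hwn1 : N ^ (-(3/4 : ℝ)) ≤ 1 := Real.rpow_le_one_of_one_le_of_nonpos hN (by norm_num)
  have hwn0 : 0 < N ^ (-(3/4 : ℝ)) := by positivity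
  have hww : N ^ (-(3/4 : ℝ)) * N ^ (3/4 : ℝ) = 1 := by
    rw [← Real.rpow_add hw0]; norm_num
  -- in the window, above and below
  have key : ∀ x y : ℝ, x ≤ y → |x - 1/2| ≤ b * N ^ (-(3/4 : ℝ)) →
      |y - 1/2| ≤ b * N ^ (-(3/4 : ℝ)) →
      c * N ^ (3/4 : ℝ) * (y - x) ≤ f y - f x := by
    intro x y hxy hx hy
    have hin : ∀ t ∈ Set.Icc x y, |t - 1/2| ≤ b * N ^ (-(3/4 : ℝ)) := by
      intro t ht
      rw [abs_le] at hx hy ⊢
      exact ⟨by linarith [ht.1], by linarith [ht.2]⟩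
    have hmono : MonotoneOn (fun t : ℝ => f t - c * N ^ (3/4 : ℝ) * t)
        (Set.Icc x y) := by
      have hD : ∀ t ∈ Set.Icc x y, ∃ d : ℝ,
          HasDerivAt (fun t : ℝ => f t - c * N ^ (3/4 : ℝ) * t) d t ∧ 0 ≤ d := by
        intro t ht
        obtain ⟨d, hd1, hd2⟩ := hder t (hin t ht)
        have e := hd1.sub ((hasDerivAt_id t).const_mul (c * N ^ (3/4 : ℝ)))
        refine ⟨_, e, ?_⟩
        rw [mul_one]
        linarith
      apply monotoneOn_of_deriv_nonneg (convex_Icc x y)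
      · intro t ht
        obtain ⟨d, hd1, -⟩ := hD t ht
        exact hd1.continuousAt.continuousWithinAt
      · intro t ht
        obtain ⟨d, hd1, -⟩ := hD t (interior_subset ht)
        exact hd1.differentiableAt.differentiableWithinAt
      · intro t ht
        obtain ⟨d, hd1, hd2⟩ := hD t (interior_subset ht)
        rw [hd1.deriv]
        exact hd2
    have := hmono (Set.left_mem_Icc.mpr hxy) (Set.right_mem_Icc.mpr hxy) hxy
    simp only at this
    linarith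
  have hhalf : |(1/2 : ℝ) - 1/2| ≤ b * N ^ (-(3/4 : ℝ)) := by
    rw [sub_self, abs_zero]; positivity
  have hmin : min c (c * b) ≤ c := min_le_left _ _
  have hmin2 : min c (c * b) ≤ c * b := min_le_right _ _
  have hmin0 : 0 < min c (c * b) := lt_min hc (by positivity)
  have bnd : b * N ^ (-(3/4 : ℝ)) ≤ 1/4 := by
    calc b * N ^ (-(3/4 : ℝ)) ≤ 1/4 * 1 := mul_le_mul hb4 hwn1 hwn0.le (by norm_num)
      _ = 1/4 := by norm_num
  have hx0 : 0 < b * N ^ (-(3/4 : ℝ)) := by positivity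
  have hcb : c * b = c * N ^ (3/4 : ℝ) * (b * N ^ (-(3/4 : ℝ))) := by
    calc c * b = c * b * (N ^ (-(3/4 : ℝ)) * N ^ (3/4 : ℝ)) := by rw [hww, mul_one]
      _ = _ := by ring
  constructor
  · intro hq
    have hab : |q - 1/2| = q - 1/2 := abs_of_nonneg (by linarith)
    rcases le_or_gt |q - 1/2| (b * N ^ (-(3/4 : ℝ))) with hin | hout
    · have k := key (1/2) q hq hhalf hin
      have : min c (c * b) * min 1 ((q - 1/2) * N ^ (3/4 : ℝ))
          ≤ c * N ^ (3/4 : ℝ) * (q - 1/2) := by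
        have hq0 : 0 ≤ (q - 1/2) * N ^ (3/4 : ℝ) := mul_nonneg (by linarith) (by positivity)
        calc min c (c * b) * min 1 ((q - 1/2) * N ^ (3/4 : ℝ))
            ≤ c * ((q - 1/2) * N ^ (3/4 : ℝ)) :=
              mul_le_mul hmin (min_le_right _ _) (le_min zero_le_one hq0) hc.le
          _ = _ := by ring
      linarith
    · obtain ⟨x, hx⟩ : ∃ x : ℝ, x = 1/2 + b * N ^ (-(3/4 : ℝ)) := ⟨_, rfl⟩
      have hxin : |x - 1/2| ≤ b * N ^ (-(3/4 : ℝ)) := by
        rw [hx]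
        have : (1/2 + b * N ^ (-(3/4 : ℝ)) - 1/2 : ℝ) = b * N ^ (-(3/4 : ℝ)) := by ring
        rw [this, abs_of_pos hx0]
      have k := key (1/2) x (by rw [hx]; linarith) hhalf hxin
      have hm2 : f x ≤ f q := by
        apply hmono _ _ (by rw [hx]; linarith) _ h1
        rw [hx]
        rw [hab] at hout
        linarith
      have hk2 : c * N ^ (3/4 : ℝ) * (x - 1/2) = c * b := by rw [hx, hcb]; ring
      rw [hk2] at k
      have hq0 : 0 ≤ (q - 1/2) * N ^ (3/4 : ℝ) := mul_nonneg (by linarith) (by positivity)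
      have : min c (c * b) * min 1 ((q - 1/2) * N ^ (3/4 : ℝ)) ≤ (c * b) * 1 :=
        mul_le_mul hmin2 (min_le_left _ _) (le_min zero_le_one hq0) (by positivity)
      linarith
  · intro hq
    have hab : |q - 1/2| = 1/2 - q := by rw [abs_sub_comm, abs_of_nonneg (by linarith)]
    rcases le_or_gt |q - 1/2| (b * N ^ (-(3/4 : ℝ))) with hin | hout
    · have k := key q (1/2) hq hin hhalf
      have : min c (c * b) * min 1 ((1/2 - q) * N ^ (3/4 : ℝ))
          ≤ c * N ^ (3/4 : ℝ) * (1/2 - q) := by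
        have hq0 : 0 ≤ (1/2 - q) * N ^ (3/4 : ℝ) := mul_nonneg (by linarith) (by positivity)
        calc min c (c * b) * min 1 ((1/2 - q) * N ^ (3/4 : ℝ))
            ≤ c * ((1/2 - q) * N ^ (3/4 : ℝ)) :=
              mul_le_mul hmin (min_le_right _ _) (le_min zero_le_one hq0) hc.le
          _ = _ := by ring
      linarith
    · obtain ⟨x, hx⟩ : ∃ x : ℝ, x = 1/2 - b * N ^ (-(3/4 : ℝ)) := ⟨_, rfl⟩
      have hxin : |x - 1/2| ≤ b * N ^ (-(3/4 : ℝ)) := by
        rw [hx]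
        have : (1/2 - b * N ^ (-(3/4 : ℝ)) - 1/2 : ℝ) = -(b * N ^ (-(3/4 : ℝ))) := by ring
        rw [this, abs_neg, abs_of_pos hx0]
      have k := key x (1/2) (by rw [hx]; linarith) hxin hhalf
      have hm2 : f q ≤ f x := by
        apply hmono _ _ h0 _ (by rw [hx]; linarith)
        rw [hx]
        rw [hab] at hout
        linarith
      have hk2 : c * N ^ (3/4 : ℝ) * (1/2 - x) = c * b := by rw [hx, hcb]; ring
      rw [hk2] at k
      have hq0 : 0 ≤ (1/2 - q) * N ^ (3/4 : ℝ) := mul_nonneg (by linarith) (by positivity)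
      have : min c (c * b) * min 1 ((1/2 - q) * N ^ (3/4 : ℝ)) ≤ (c * b) * 1 :=
        mul_le_mul hmin2 (min_le_left _ _) (le_min zero_le_one hq0) (by positivity)
      linarith

/-- The probability of an event is at least the probability of one configuration. -/
theorem single_low {q : ℝ} (h0 : 0 ≤ q) (h1 : q ≤ 1) (S F : Finset Edg) (hF : F ⊆ S)
    (A : Finset Edg → Prop) (hA : A F) :
    q ^ F.card * (1 - q) ^ (S \ F).card ≤ Pr (fun _ => q) S A := by
  unfold Pr Ex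
  have h := Finset.single_le_sum (f := fun F => (∏ e ∈ F, (fun _ : Edg => q) e) *
    (∏ e ∈ S \ F, (1 - (fun _ : Edg => q) e)) * ind (A F)) (s := S.powerset) (a := F)
    (fun G _ => by
      refine mul_nonneg (mul_nonneg ?_ ?_) (ind_nonneg _)
      · exact Finset.prod_nonneg fun _ _ => h0
      · exact Finset.prod_nonneg fun _ _ => by simp only; linarith)
    (Finset.mem_powerset.2 hF)
  refine le_trans (le_of_eq ?_) h
  simp only [Finset.prod_const, ind_of hA, mul_one]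

/-- The variance of a nontrivial event. -/
theorem small {I J : Set Vtx} {S : Finset Edg} (hS : Cn I J (↑S : Set Edg))
    (hE : ¬ Cn I J (∅ : Set Edg)) {q : ℝ} (hq : 1/4 ≤ q) (hq' : q ≤ 3/4) :
    (1/16 : ℝ) ^ S.card ≤ PQ q S (fun F => Cn I J (↑F : Set Edg)) *
      (1 - PQ q S (fun F => Cn I J (↑F : Set Edg))) := by
  have a1 := single_low (q := q) (by linarith) (by linarith) S S (Finset.Subset.refl _)
    (fun F => Cn I J (↑F : Set Edg)) hS
  have a2 := single_low (q := q) (by linarith) (by linarith) S ∅ (Finset.empty_subset _)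
    (fun F => ¬ Cn I J (↑F : Set Edg)) (by simpa using hE)
  rw [Pr_not] at a2
  simp only [Finset.sdiff_self, Finset.card_empty, pow_zero, mul_one, Finset.sdiff_empty,
    one_mul] at a1 a2
  have b1 : (1/4 : ℝ) ^ S.card ≤ q ^ S.card := pow_le_pow_left₀ (by norm_num) hq _
  have b2 : (1/4 : ℝ) ^ S.card ≤ (1 - q) ^ S.card :=
    pow_le_pow_left₀ (by norm_num) (by linarith) _
  have e : (1/16 : ℝ) ^ S.card = (1/4 : ℝ) ^ S.card * (1/4 : ℝ) ^ S.card := by
    rw [← mul_pow]; norm_num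
  rw [e]
  exact mul_le_mul (b1.trans a1) (b2.trans a2) (by positivity)
    ((pow_nonneg (by norm_num) _).trans (b1.trans a1))

theorem reach_empty {u v : Vtx} (h : Reach (∅ : Set Edg) u v) : u = v := by
  induction h with
  | refl => rfl
  | tail _ h _ =>
    obtain ⟨e, he, -⟩ := h
    exact absurd he (Set.notMem_empty e)

/-- A horizontal path. -/
theorem reach_hor {F : Set Edg} {a y : ℤ} : ∀ k : ℕ, (∀ x : ℤ, a ≤ x → x < a + k →
    ((x, y, true) : Edg) ∈ F) → Reach F (a, y) (a + k, y) := by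
  intro k
  induction k with
  | zero => intro _; simpa using Reach.refl F (a, y)
  | succ k ih =>
    intro h
    have h1 := ih fun x hx hx' => h x hx (by push_cast; omega)
    have h2 : Reach F (a + k, y) (a + (k + 1 : ℕ), y) := by
      refine Adj.reach ⟨((a + k, y, true) : Edg), h _ (by omega) (by push_cast; omega), Or.inl ⟨rfl, ?_⟩⟩
      rw [tgt_true]
      push_cast
      ring_nf
    exact h1.trans h2

theorem card_RE {a b c d : ℤ} {N : ℕ} (h1 : b - a ≤ N) (h2 : d - c ≤ N) :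
    (RE a b c d).card ≤ (N + 1) * ((N + 1) * 2) := by
  unfold RE
  refine (Finset.card_filter_le _ _).trans ?_
  rw [Finset.card_product, Finset.card_product, Int.card_Icc, Int.card_Icc, Finset.card_univ,
    Fintype.card_bool]
  refine Nat.mul_le_mul (by omega) (Nat.mul_le_mul (by omega) le_rfl)

/-- The lower bound of the derivative. -/
theorem deriv_low (h1 : S_INW) (h2 : S_DOM) (h3 : S_MAC) {κ : ℝ} (hκ : 0 < κ) :
    ∃ b c : ℝ, 0 < b ∧ b ≤ 1/4 ∧ 0 < c ∧ ∀ (N : ℕ), 1 ≤ N → ∀ D : Dm, D.Shape κ N →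
      ∀ m : ℤ, ((max D.t 0 : ℤ) : ℝ) + κ * N ≤ m → m ≤ D.r → ∀ q : ℝ,
        |q - 1/2| ≤ b * (N:ℝ) ^ (-(3/4 : ℝ)) →
        c * (N:ℝ) ^ (3/4 : ℝ) ≤ ∑ e ∈ RE D.l m 0 D.h, PQ q (RE D.l m 0 D.h)
          (fun F => Pv (wa D) (lsd m 0 D.h) e ↑F) := by
  obtain ⟨b0, hb0, hin⟩ := h1
  obtain ⟨c0, hc0, hmac⟩ := h3 (κ / 64) (by positivity)
  obtain ⟨B, Mr, Ci, hB, hMr, hCi, hin⟩ := hin (c0 / 2) (by positivity)
  obtain ⟨b, hb⟩ : ∃ b : ℝ, b = min b0 (1/4) := ⟨_, rfl⟩
  have hbpos : 0 < b := by rw [hb]; exact lt_min hb0 (by norm_num)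
  have hbb0 : b ≤ b0 := by rw [hb]; exact min_le_left _ _
  have hb4 : b ≤ 1/4 := by rw [hb]; exact min_le_right _ _
  have hBr : (2:ℝ) ≤ B := by exact_mod_cast hB
  have hMrr : (1:ℝ) ≤ Mr := by exact_mod_cast hMr
  obtain ⟨K0, hK0⟩ : ∃ K0 : ℕ, 16 * B * Mr / κ ≤ (K0 : ℝ) := exists_nat_ge _
  have hK0pos : (0:ℝ) < K0 := lt_of_lt_of_le (by positivity) hK0
  obtain ⟨E0, hE0⟩ : ∃ E0 : ℕ, E0 = (K0 + 1) * ((K0 + 1) * 2) := ⟨_, rfl⟩
  refine ⟨b, min (c0 / 2 / (Ci * (32 * B / κ + 1))) ((1/16 : ℝ) ^ E0 / K0), hbpos, hb4,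
    lt_min (by positivity) (by positivity), ?_⟩
  intro N hN D hD m hm hmr q hq
  have hNr : (1:ℝ) ≤ N := by exact_mod_cast hN
  have hN0 : (0:ℝ) < N := by linarith
  have hwn1 : (N:ℝ) ^ (-(3/4 : ℝ)) ≤ 1 := Real.rpow_le_one_of_one_le_of_nonpos hNr (by norm_num)
  have hwn0 : 0 < (N:ℝ) ^ (-(3/4 : ℝ)) := by positivity
  have hq4 : |q - 1/2| ≤ 1/4 := by
    refine hq.trans ?_
    calc b * (N:ℝ) ^ (-(3/4 : ℝ)) ≤ 1/4 * 1 := mul_le_mul hb4 hwn1 hwn0.le (by norm_num)
      _ = 1/4 := by norm_num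
  have hq1' : |q - 1/2| ≤ (N:ℝ) ^ (-(3/4 : ℝ)) := by
    refine hq.trans ?_
    nlinarith
  have hqb0 : |q - 1/2| ≤ b0 * (N:ℝ) ^ (-(3/4 : ℝ)) :=
    hq.trans (mul_le_mul_of_nonneg_right hbb0 hwn0.le)
  obtain ⟨hql, hqu⟩ := abs_le.mp hq4
  have hqa : 1/4 ≤ q := by linarith
  have hqb : q ≤ 3/4 := by linarith
  have h0 : 0 ≤ q := by linarith
  have h1 : q ≤ 1 := by linarith
  obtain ⟨a0, ha0⟩ : ∃ a0 : ℤ, a0 = max D.t 0 := ⟨_, rfl⟩
  rw [← ha0] at hm
  have ha00 : 0 ≤ a0 := by rw [ha0]; exact le_max_right _ _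
  have ha0t : D.t ≤ a0 := by rw [ha0]; exact le_max_left _ _
  have hl0 := hD.ok.l_neg
  have ham : a0 < m := by
    have : (a0:ℝ) < m := by nlinarith [mul_pos hκ hN0]
    exact_mod_cast this
  have hhN : D.h ≤ N := by exact_mod_cast hD.h_le
  have hwN : D.r - D.l ≤ N := by exact_mod_cast hD.w_le
  have hpiv := cn_piv (wa D) (lsd m 0 D.h) (RE D.l m 0 D.h) q
  obtain ⟨Sg, hSg⟩ : ∃ Sg : ℝ, Sg = ∑ e ∈ RE D.l m 0 D.h, PQ q (RE D.l m 0 D.h)
    (fun F => Pv (wa D) (lsd m 0 D.h) e ↑F) := ⟨_, rfl⟩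
  rw [← hSg] at hpiv ⊢
  have hw34 : 0 < (N:ℝ) ^ (3/4 : ℝ) := by positivity
  obtain ⟨μ, hμ⟩ : ∃ μ : ℕ, μ = (min (m - a0) D.h).toNat := ⟨_, rfl⟩
  have hh0 := hD.ok.h_pos
  have hμm : (μ:ℤ) ≤ m - a0 := by omega
  have hμh : (μ:ℤ) ≤ D.h := by omega
  have hκμ : κ * N ≤ μ := by
    have e1 : (μ:ℤ) = min (m - a0) D.h := by omega
    have e2 : (μ:ℝ) = min ((m:ℝ) - a0) D.h := by
      have : ((μ:ℤ):ℝ) = ((min (m - a0) D.h : ℤ) : ℝ) := by rw [e1]
      push_cast at this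
      exact this
    rw [e2]
    exact le_min (by linarith) hD.h_ge
  obtain ⟨r, hr⟩ : ∃ r : ℕ, r = μ / (16 * B) := ⟨_, rfl⟩
  have hB16 : 0 < 16 * B := by omega
  have hμr : μ < 16 * B * (r + 1) := by rw [hr]; exact Nat.lt_mul_div_succ _ hB16
  have hrμ : 16 * B * r ≤ μ := by rw [hr]; exact Nat.mul_div_le μ (16 * B)
  rcases le_or_gt Mr r with hc | hc
  · -- large rectangles
    have hr1 : 1 ≤ r := hMr.trans hc
    obtain ⟨s, hs⟩ : ∃ s : ℕ, s = B * r := ⟨_, rfl⟩
    have hs16 : 16 * s ≤ μ := by rw [hs]; rw [mul_assoc] at hrμ; exact hrμ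
    have hμs : μ < 32 * s := by
      have e1 : 16 * B * (r + 1) ≤ 16 * B * (2 * r) := Nat.mul_le_mul_left _ (by omega)
      have e2 : 16 * B * (2 * r) = 32 * s := by rw [hs]; ring
      omega
    have hs2 : 2 ≤ s := by
      rw [hs]
      calc 2 = 2 * 1 := rfl
        _ ≤ B * r := Nat.mul_le_mul hB hr1
    obtain ⟨ρ, hρ⟩ : ∃ ρ : ℕ, ρ = s - 1 := ⟨_, rfl⟩
    have hρ1 : 1 ≤ ρ := by omega
    have hρs : (ρ:ℝ) + 1 = s := by
      have : ρ + 1 = s := by omega
      exact_mod_cast this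
    have hs2r : (2:ℝ) ≤ s := by exact_mod_cast hs2
    have hμsr : (μ:ℝ) ≤ 32 * s := by exact_mod_cast hμs.le
    have hκρ : κ / 64 * N ≤ s / 2 := by linarith
    obtain ⟨p, hp⟩ : ∃ p : ℤ × ℤ, p = (a0 + (m - a0) / 2, D.h / 2) := ⟨_, rfl⟩
    have hp1 : p.1 = a0 + (m - a0) / 2 := by rw [hp]
    have hp2 : p.2 = D.h / 2 := by rw [hp]
    have g1 : a0 + 8 * (s:ℤ) ≤ p.1 := by rw [hp1]; omega
    have g2 : p.1 + 8 * (s:ℤ) ≤ m := by rw [hp1]; omega
    have g3 : 8 * (s:ℤ) ≤ p.2 := by rw [hp2]; omega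
    have g4 : p.2 + 8 * (s:ℤ) ≤ D.h := by rw [hp2]; omega
    have g1r : (a0:ℝ) + 8 * (s:ℝ) ≤ p.1 := by exact_mod_cast g1
    have g2r : (p.1:ℝ) + 8 * (s:ℝ) ≤ m := by exact_mod_cast g2
    have g3r : 8 * (s:ℝ) ≤ p.2 := by exact_mod_cast g3
    have g4r : (p.2:ℝ) + 8 * (s:ℝ) ≤ D.h := by exact_mod_cast g4
    have hκN : κ / 64 * N ≤ κ * N := by
      have : 0 < κ * N := by positivity
      linarith
    have hshape : D.Shape (κ / 64) N :=
      ⟨hD.ok, hκN.trans hD.l_ge, hκN.trans hD.r_ge, hκN.trans hD.h_ge, hD.w_le, hD.h_le⟩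
    have hP := hmac N hN q hqa hqb hq1' D hshape m p ρ hmr (by linarith) hρ1
      (by rw [← ha0]; linarith) (by linarith) (by linarith) (by linarith)
    obtain ⟨I', J', hdom, hfar⟩ := h2 D hD.ok m (by rw [← ha0]; exact ham) hmr
    have hmain := hin N hN q hqb0 r hc (by rw [← hs]; omega) (RE D.l m 0 D.h) (wa D)
      (lsd m 0 D.h) I' J' p (by
        rw [← hs]
        unfold blk
        apply RE_subset <;> push_cast <;> omega) hdom (by
        rw [← hs]
        rintro v (hv | hv)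
        · left
          have hv1 : v.1 ≤ a0 := by
            rcases hv with hv | hv | hv
            · exact hv.2.2.trans ha0t
            · rw [hv.1]; omega
            · exact hv.2.2.trans ha00
          rw [abs_sub_comm, le_abs]
          left; push_cast; omega
        · left
          have hv1 : v.1 = m := hv.1
          rw [le_abs]
          left; push_cast; omega) (by
        rw [← hs]
        intro f hf
        right
        rcases hfar f hf with hf | hf
        · rw [abs_sub_comm, le_abs]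
          left; push_cast; omega
        · rw [le_abs]
          left; push_cast; omega)
    rw [← hs, ← hρ, ← hSg] at hmain
    obtain ⟨P, hPP⟩ : ∃ P : ℝ, P = PQ q (RE D.l m 0 D.h)
      (fun F => BPv (wa D) (lsd m 0 D.h) (blk p ρ) ↑F) := ⟨_, rfl⟩
    rw [← hPP] at hP hmain
    have hPδ : c0 / 2 ≤ P - c0 / 2 := by linarith
    have hr34 : (N:ℝ) ^ (3/4 : ℝ) ≤ (32 * B / κ + 1) * (r:ℝ) ^ (3/4 : ℝ) := by
      have e1 : (N:ℝ) ≤ (32 * B / κ + 1) * r := by
        have e2 : κ * N ≤ 32 * B * r := by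
          rw [hs] at hμsr
          push_cast at hμsr
          linarith
        have e3 : (N:ℝ) ≤ 32 * B / κ * r := by
          rw [div_mul_eq_mul_div, le_div_iff₀ hκ]
          linarith
        have hr0 : (0:ℝ) ≤ r := Nat.cast_nonneg r
        linarith
      have e2 := Real.rpow_le_rpow hN0.le e1 (by norm_num : (0:ℝ) ≤ 3/4)
      rw [Real.mul_rpow (by positivity) (by positivity)] at e2
      refine e2.trans (mul_le_mul_of_nonneg_right ?_ (by positivity))
      have e3 : (1:ℝ) ≤ 32 * B / κ + 1 := by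
        have : 0 ≤ 32 * B / κ := by positivity
        linarith
      calc (32 * B / κ + 1) ^ (3/4 : ℝ) ≤ (32 * B / κ + 1) ^ (1:ℝ) :=
            Real.rpow_le_rpow_of_exponent_le e3 (by norm_num)
        _ = _ := Real.rpow_one _
    have hr0 : 0 ≤ (r:ℝ) ^ (3/4 : ℝ) := by positivity
    have e5 : c0 / 2 * (r:ℝ) ^ (3/4 : ℝ) ≤ Ci * Sg :=
      (mul_le_mul_of_nonneg_right hPδ hr0).trans hmain
    calc min (c0 / 2 / (Ci * (32 * B / κ + 1))) ((1/16 : ℝ) ^ E0 / K0) * (N:ℝ) ^ (3/4 : ℝ)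
        ≤ c0 / 2 / (Ci * (32 * B / κ + 1)) * ((32 * B / κ + 1) * (r:ℝ) ^ (3/4 : ℝ)) :=
          mul_le_mul (min_le_left _ _) hr34 hw34.le (by positivity)
      _ = (c0 / 2 * (r:ℝ) ^ (3/4 : ℝ)) / Ci := by
          have : (32 * B / κ + 1 : ℝ) ≠ 0 := by positivity
          field_simp
      _ ≤ Sg := by rw [div_le_iff₀ hCi]; linarith
  · -- small rectangles
    have hμ16 : (μ:ℝ) ≤ 16 * B * Mr := by
      have e1 : μ ≤ 16 * B * Mr := hμr.le.trans (Nat.mul_le_mul_left _ (by omega))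
      exact_mod_cast e1
    have hNK : N ≤ K0 := by
      have : (N:ℝ) ≤ K0 := by
        refine le_trans ?_ hK0
        rw [le_div_iff₀ hκ]
        linarith
      exact_mod_cast this
    have hcard : (RE D.l m 0 D.h).card ≤ E0 := by
      rw [hE0]
      exact card_RE (by omega) (by omega)
    have hfull : Cn (wa D) (lsd m 0 D.h) (↑(RE D.l m 0 D.h) : Set Edg) := by
      refine ⟨(D.l, 0), Or.inr (Or.inl ⟨rfl, le_rfl, hh0.le⟩), (m, 0), ⟨rfl, le_rfl, hh0.le⟩, ?_⟩
      have e := reach_hor (F := (↑(RE D.l m 0 D.h) : Set Edg)) (a := D.l) (y := 0)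
        (m - D.l).toNat (fun x hx hx' => by
          rw [Finset.mem_coe, mem_RE_true]
          omega)
      have e2 : D.l + ((m - D.l).toNat : ℤ) = m := by omega
      rw [e2] at e
      exact e
    have hempty : ¬ Cn (wa D) (lsd m 0 D.h) (∅ : Set Edg) := by
      rintro ⟨u, hu, v, hv, huv⟩
      have e := reach_empty huv
      subst e
      have hv1 : u.1 ≤ a0 := by
        rcases hu with hv | hv | hv
        · exact hv.2.2.trans ha0t
        · rw [hv.1]; omega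
        · exact hv.2.2.trans ha00
      have hv2 : u.1 = m := hv.1
      omega
    have e3 : (1/16 : ℝ) ^ E0 ≤ Sg := by
      have k1 := small hfull hempty hqa hqb
      have k2 := poinc (RE D.l m 0 D.h) (fun F => Cn (wa D) (lsd m 0 D.h) (↑F : Set Edg))
        (fun F G hFG hF => Cn_mono (by exact_mod_cast hFG) hF) q h0 h1 _ hpiv
      refine le_trans ?_ (k1.trans k2)
      exact pow_le_pow_of_le_one (by norm_num) (by norm_num) hcard
    have e4 : (N:ℝ) ^ (3/4 : ℝ) ≤ K0 := by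
      refine le_trans ?_ (show (N:ℝ) ≤ K0 by exact_mod_cast hNK)
      calc (N:ℝ) ^ (3/4 : ℝ) ≤ (N:ℝ) ^ (1:ℝ) :=
            Real.rpow_le_rpow_of_exponent_le hNr (by norm_num)
        _ = _ := Real.rpow_one _
    calc min (c0 / 2 / (Ci * (32 * B / κ + 1))) ((1/16 : ℝ) ^ E0 / K0) * (N:ℝ) ^ (3/4 : ℝ)
        ≤ (1/16 : ℝ) ^ E0 / K0 * K0 :=
          mul_le_mul (min_le_right _ _) e4 hw34.le (by positivity)
      _ = (1/16 : ℝ) ^ E0 := by field_simp
      _ ≤ Sg := e3

/-- The event only depends on the part of the rectangle left of the column `m`. -/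
theorem km_eq (D : Dm) {m : ℤ} (hm : m ≤ D.r) (q : ℝ) :
    Pr (fun _ => q) D.edges (KM D m) =
      PQ q (RE D.l m 0 D.h) (fun F => Cn (wa D) (lsd m 0 D.h) (↑F : Set Edg)) := by
  have hsub : RE D.l m 0 D.h ⊆ D.edges := RE_subset le_rfl hm le_rfl le_rfl
  rw [Pr_local hsub]
  · apply Pr_congr
    intro F hF
    unfold KM
    rw [Set.inter_eq_left.2 (by exact_mod_cast hF)]
  · intro F _
    unfold KM
    rw [Finset.coe_inter, Set.inter_assoc, Set.inter_self]

end SepX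

open SepX in
theorem sep (h1 : S_INW) (h2 : S_DOM) (h3 : S_MAC) : S_SEP := by
  intro κ hκ
  obtain ⟨b, c, hb, hb4, hc, hder⟩ := deriv_low h1 h2 h3 (κ := κ / 2) (by positivity)
  refine ⟨min c (c * b), lt_min hc (by positivity), ?_⟩
  intro n D hn hD m hm hmr q h0 h1
  obtain ⟨N, hN⟩ : ∃ N : ℕ, N = ⌈n⌉₊ := ⟨_, rfl⟩
  have hnN : n ≤ N := by rw [hN]; exact Nat.le_ceil n
  have hNn : (N:ℝ) ≤ 2 * n := by
    have := Nat.ceil_lt_add_one (a := n) (by linarith)
    rw [← hN] at this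
    linarith
  have hN1 : 1 ≤ N := by
    have : (1:ℝ) ≤ N := hn.trans hnN
    exact_mod_cast this
  have hκN : κ / 2 * N ≤ κ * n := by nlinarith
  have hshape : D.Shape (κ / 2) N :=
    ⟨hD.ok, hκN.trans hD.l_ge, hκN.trans hD.r_ge, hκN.trans hD.h_ge, hD.w_le.trans hnN,
      hD.h_le.trans hnN⟩
  have hI := integ (f := fun q => PQ q (RE D.l m 0 D.h)
      (fun F => Cn (wa D) (lsd m 0 D.h) (↑F : Set Edg))) (N := N) (b := b) (c := c)
    (hn.trans hnN) hb hb4 hc (by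
      intro x y hx hxy hy
      apply Pr_mono_param (fun _ => ⟨hx, hxy.trans hy⟩) (fun _ => ⟨hx.trans hxy, hy⟩)
        (fun _ => hxy)
      intro F G hFG _ hF
      exact Cn_mono (by exact_mod_cast hFG) hF)
    (fun q hq => ⟨_, cn_piv _ _ _ q, hder N hN1 D hshape m (by linarith) hmr q hq⟩)
    (q := q) h0 h1
  rw [km_eq D hmr, km_eq D hmr]
  have hpow : n ^ (3/4 : ℝ) ≤ (N:ℝ) ^ (3/4 : ℝ) :=
    Real.rpow_le_rpow (by linarith) hnN (by norm_num)
  have hcc : 0 ≤ min c (c * b) := (lt_min hc (by positivity)).le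
  constructor
  · intro hq
    refine le_trans ?_ (hI.1 hq)
    have : min c (c * b) * min 1 ((q - 1/2) * n ^ (3/4 : ℝ)) ≤
        min c (c * b) * min 1 ((q - 1/2) * (N:ℝ) ^ (3/4 : ℝ)) :=
      mul_le_mul_of_nonneg_left (min_le_min_left _
        (mul_le_mul_of_nonneg_left hpow (by linarith))) hcc
    linarith
  · intro hq
    refine le_trans ?_ (hI.2 hq)
    have : min c (c * b) * min 1 ((1/2 - q) * n ^ (3/4 : ℝ)) ≤
        min c (c * b) * min 1 ((1/2 - q) * (N:ℝ) ^ (3/4 : ℝ)) :=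
      mul_le_mul_of_nonneg_left (min_le_min_left _
        (mul_le_mul_of_nonneg_left hpow (by linarith))) hcc
    linarith

end Pool.Agent.N116.EW
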